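import Pool.Agent.H5.DPG.Stmts

set_option autoImplicit false

namespace Pool.DPG

open Filter TMLib Pool.PG

private theorem mpr_le : ∀ (l : List ℕ) (a : ℕ), l.foldl min a ≤ a ∧ ∀ x ∈ l, l.foldl min a ≤ x
  | [], a => ⟨le_refl _, by simp⟩
  | b :: l, a => by
    have h := mpr_le l (min a b)
    rw [List.foldl_cons]
    refine ⟨h.1.trans (min_le_left _ _), ?_⟩
    intro x hx
    rcases List.mem_cons.1 hx with h1 | h1
    · rw [h1]; exact h.1.trans (min_le_right _ _)
    · exact h.2 x h1

private theorem mpr_mem : ∀ (l : List ℕ) (a : ℕ), l.foldl min a = a ∨ l.foldl min a ∈ l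
  | [], a => Or.inl rfl
  | b :: l, a => by
    rw [List.foldl_cons]
    rcases mpr_mem l (min a b) with h | h
    · rcases le_total a b with h1 | h1
      · left; rw [h, min_eq_left h1]
      · right; rw [h, min_eq_right h1]; exact List.mem_cons_self
    · right; exact List.mem_cons_of_mem _ h

private theorem mpr_mnl (l : List ℕ) (hl : l ≠ []) : mnl l ∈ l ∧ ∀ x ∈ l, mnl l ≤ x := by
  unfold mnl
  refine ⟨?_, (mpr_le l _).2⟩
  rcases mpr_mem l (l.headD 0) with h | h
  · rw [h]
    cases l with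
    | nil => exact absurd rfl hl
    | cons b l => exact List.mem_cons_self
  · exact h

private theorem mpr_evb : ∀ n : ℕ, Even n ↔ evb n = true
  | 0 => by simp [evb]
  | n + 1 => by
    have h := mpr_evb n
    have e : evb (n + 1) = !evb n := rfl
    rw [e, Nat.even_add_one, h]
    cases evb n <;> simp

theorem mpr_thm (h1 : FSBStmt) : MPRStmt := by
  intro g X hne
  have hmem : ∀ x, x ∈ ((List.range g.length).filter fun v => X.getD v false).map (fun v => pri g v)
      ↔ ∃ v ∈ fs g X, pri g v = x := by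
    intro x
    unfold fs
    constructor
    · intro h
      obtain ⟨v, hv, hx⟩ := List.mem_map.1 h
      have hv' := List.mem_filter.1 hv
      exact ⟨v, Finset.mem_filter.2 ⟨Finset.mem_range.2 (List.mem_range.1 hv'.1), hv'.2⟩, hx⟩
    · rintro ⟨v, hv, hx⟩
      have hv' := Finset.mem_filter.1 hv
      exact List.mem_map.2 ⟨v, List.mem_filter.2
        ⟨List.mem_range.2 (Finset.mem_range.1 hv'.1), hv'.2⟩, hx⟩
  have hl : ((List.range g.length).filter fun v => X.getD v false).map (fun v => pri g v) ≠ [] := by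
    obtain ⟨v, hv⟩ := hne
    exact List.ne_nil_of_mem ((hmem (pri g v)).2 ⟨v, hv, rfl⟩)
  have hm := mpr_mnl _ hl
  have h2 : ∀ v ∈ fs g X, mp g X ≤ pri g v := by
    intro v hv
    exact hm.2 _ ((hmem (pri g v)).2 ⟨v, hv, rfl⟩)
  have h3 : fs g (tp g X) = (fs g X).filter (fun v => pri g v = mp g X) := by
    unfold tp
    rw [(h1.1 g _).2]
    unfold fs
    rw [Finset.filter_filter]
    refine Finset.filter_congr fun v _ => ?_
    simp
  refine ⟨h2, h3, ?_, ?_⟩
  · obtain ⟨v, hv, hx⟩ := (hmem _).1 hm.1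
    rw [h3]
    exact ⟨v, Finset.mem_filter.2 ⟨hv, hx⟩⟩
  · unfold pl
    exact mpr_evb _

end Pool.DPG
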